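import Pool.Agent.H57.BD.StmtsZ

/-!
# Z2: the even layers
-/

set_option autoImplicit false

namespace Pool.BD

open Relation

namespace Z2

/-- conditions for one layer, downwards -/
structure Dat (i : LaI) (D Z A : Set i.P) : Prop where
  conn : ((@cov i.P i.ord).induce D).Connected
  disj : ∀ x ∈ D, x ∉ Z ∧ x ∉ A
  dn : ∀ z ∈ Z, ∃ d ∈ D, i.ord.le z d ∧ ∀ c, i.ord.le c d → i.ord.le z c → c ∈ D ∪ Z
  cx : ∀ x ∈ Z ∪ A, ∀ y ∈ Z, ∀ c, i.ord.le c x → i.ord.le y c → c ∈ Z ∪ A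

/-- the dual order on the same type -/
abbrev du {P : Type} (o : PartialOrder P) : PartialOrder P :=
  @OrderDual.instPartialOrder P o

theorem cov_du {P : Type} (o : PartialOrder P) : @cov P (du o) = @cov P o := by
  ext a b
  have h : ∀ a b : P, (@CovBy P (du o).toLT a b ↔ @CovBy P o.toLT b a) := by
    intro a b
    constructor
    · rintro ⟨h1, h2⟩
      exact ⟨h1, fun c hc1 hc2 => h2 hc2 hc1⟩
    · rintro ⟨h1, h2⟩
      exact ⟨h1, fun c hc1 hc2 => h2 hc2 hc1⟩
  unfold cov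
  rw [SimpleGraph.fromRel_adj, SimpleGraph.fromRel_adj, h a b, h b a, or_comm]

theorem rk_ex (hR : ZRStmt) (i : LaI) (D Z A : Set i.P) (h : Dat i D Z A) :
    ∃ rk : Option i.P → ℕ, Function.Injective rk ∧ (∀ v, v ≠ none → rk none < rk v) ∧
      (∀ y ∈ Z, Re (cgr (@cov i.P i.ord) D Z A) rk none (some y)) ∧
      ∀ x ∈ Z ∪ A, ∀ y ∈ Z, (Re (cgr (@cov i.P i.ord) D Z A) rk (some x) (some y) ↔
        i.ord.le y x) := by
  have := i.fin
  have h1 := @hR i.P i.fin (du i.ord) D Z A h.disj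
    (fun z hz => by
      obtain ⟨d, hd, h1, h2⟩ := h.dn z hz
      exact ⟨d, hd, h1, fun c hc1 hc2 => h2 c hc1 hc2⟩)
    (fun x hx y hy c hc1 hc2 => h.cx x hx y hy c hc1 hc2)
  rw [cov_du] at h1
  exact h1

open Classical in
/-- the sets of the layer `(r, k)` -/
noncomputable def Ds (i : LaI) (r : i.P) (k : ℕ) : Set i.P :=
  {z | if 1 ≤ k ∧ i.comp r = r then i.comp z = r ∧ i.ly z < 2 * k else z = r}
/-- the sets of the layer `(r, k)` -/
def Zs (i : LaI) (r : i.P) (k : ℕ) : Set i.P :=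
  {z | (1 ≤ k ∧ i.comp r = r) ∧ i.comp z = r ∧ i.ly z = 2 * k}
/-- the sets of the layer `(r, k)` -/
def As (i : LaI) (r : i.P) (k : ℕ) : Set i.P :=
  {z | (1 ≤ k ∧ i.comp r = r) ∧ i.comp z = r ∧ i.ly z = 2 * k + 1}

theorem dat (i : LaI) (r : i.P) (k : ℕ) : Dat i (Ds i r k) (Zs i r k) (As i r k) := by
  let _ := i.ord
  have hl := i.lay
  by_cases hk : 1 ≤ k ∧ i.comp r = r
  · have hD : Ds i r k = {z | i.comp z = r ∧ i.ly z < 2 * k} := by
      ext z; simp only [Ds, Set.mem_ofPred_eq, if_pos hk]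
    have hZ : Zs i r k = {z | i.comp z = r ∧ i.ly z = 2 * k} := by
      ext z; simp only [Zs, Set.mem_ofPred_eq, hk, and_self, true_and]
    have hA : As i r k = {z | i.comp z = r ∧ i.ly z = 2 * k + 1} := by
      ext z; simp only [As, Set.mem_ofPred_eq, hk, and_self, true_and]
    rw [hD, hZ, hA]
    refine ⟨hl.conn r (2 * k) (by omega) hk.2, ?_, ?_, ?_⟩
    · rintro x ⟨h1, h2⟩
      refine ⟨?_, ?_⟩
      · rintro ⟨h3, h4⟩; omega
      · rintro ⟨h3, h4⟩; omega
    · rintro z ⟨h1, h2⟩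
      obtain ⟨d, h3, h4, h5⟩ := hl.down z (by omega) (by omega)
      refine ⟨d, ⟨by rw [← hl.comp_le z d h4]; exact h1, by omega⟩, h4, fun c hc1 hc2 => ?_⟩
      have h6 := h5 c hc2 hc1
      have h7 : i.comp c = r := by rw [← hl.comp_le z c hc2]; exact h1
      rcases Nat.lt_or_ge (i.ly c) (2 * k) with h8 | h8
      · exact Or.inl ⟨h7, h8⟩
      · exact Or.inr ⟨h7, by omega⟩
    · rintro x hx y ⟨hy1, hy2⟩ c hc1 hc2
      have h7 : i.comp c = r := by rw [← hl.comp_le y c hc2]; exact hy1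
      have hx' : i.ly x = 2 * k ∨ i.ly x = 2 * k + 1 := by
        rcases hx with hx | hx
        · exact Or.inl hx.2
        · exact Or.inr hx.2
      have h8 : i.ly c = 2 * k ∨ i.ly c = 2 * k + 1 := by
        rcases eq_or_lt_of_le hc1 with e | e
        · rw [e]; exact hx'
        · rcases eq_or_lt_of_le hc2 with e' | e'
          · rw [← e']; exact Or.inl hy2
          · have h9 := hl.ly_lt y c e'
            have h10 := hl.ly_lt c x e
            omega
      rcases h8 with h8 | h8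
      · exact Or.inl ⟨h7, h8⟩
      · exact Or.inr ⟨h7, h8⟩
  · have hD : Ds i r k = {r} := by
      ext z; simp only [Ds, Set.mem_ofPred_eq, if_neg hk, Set.mem_singleton_iff]
    have hZ : Zs i r k = ∅ := by
      ext z; simp only [Zs, Set.mem_ofPred_eq, hk, false_and, Set.mem_empty_iff_false]
    have hA : As i r k = ∅ := by
      ext z; simp only [As, Set.mem_ofPred_eq, hk, false_and, Set.mem_empty_iff_false]
    rw [hD, hZ, hA]
    refine ⟨?_, ?_, ?_, ?_⟩
    · have : Subsingleton ({r} : Set i.P) := ⟨fun a b => Subtype.ext (by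
        rw [Set.mem_singleton_iff.1 a.2, Set.mem_singleton_iff.1 b.2])⟩
      have : Nonempty ({r} : Set i.P) := ⟨⟨r, rfl⟩⟩
      exact ⟨fun a b => by rw [Subsingleton.elim a b]⟩
    · intro x _
      exact ⟨fun h => h, fun h => h⟩
    · intro z hz
      exact absurd hz (fun h => h)
    · intro x hx y hy
      exact absurd hy (fun h => h)

end Z2

theorem z2 {Pl : ∀ V : Type, SimpleGraph V → Prop} (hU : ZUStmt) (hS : ZSStmt) (hF : ZFStmt)
    (hR : ZRStmt) (hI : INSP Pl)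
    (hPl : ∀ (V : Type) [Finite V] (G : SimpleGraph V), Pool.WG.Fr G → Pl V G) : Z2Stmt := by
  classical
  have key : Bd (ι := LaI) (fun i => i.P)
      (fun i a b => i.comp a = i.comp b ∧ i.ly a / 2 = i.ly b / 2 ∧ i.ly b % 2 = 0 ∧ 0 < i.ly b)
      (fun i a b => i.ord.lt b a) := by
    have hex : ∀ (i : LaI) (j : i.P × ℕ), ∃ rk : Option i.P → ℕ, Function.Injective rk ∧
        (∀ v, v ≠ none → rk none < rk v) ∧
        (∀ y ∈ Z2.Zs i j.1 j.2, Re (cgr (@cov i.P i.ord) (Z2.Ds i j.1 j.2) (Z2.Zs i j.1 j.2)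
          (Z2.As i j.1 j.2)) rk none (some y)) ∧
        ∀ x ∈ Z2.Zs i j.1 j.2 ∪ Z2.As i j.1 j.2, ∀ y ∈ Z2.Zs i j.1 j.2,
          (Re (cgr (@cov i.P i.ord) (Z2.Ds i j.1 j.2) (Z2.Zs i j.1 j.2) (Z2.As i j.1 j.2)) rk
            (some x) (some y) ↔ i.ord.le y x) := fun i j =>
      Z2.rk_ex hR i _ _ _ (Z2.dat i j.1 j.2)
    choose rk h1 h2 h3 h4 using hex
    have hfin : ∀ i : LaI, Finite (Option i.P) := fun i => by
      have := i.fin
      infer_instance
    refine hU hI (κ := LaI) (fun i => i.P) (fun i => i.P × ℕ) (fun i x => (i.comp x, i.ly x / 2))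
      (fun i j => { V := Option i.P, fin := hfin i,
                    G := cgr (@cov i.P i.ord) (Z2.Ds i j.1 j.2) (Z2.Zs i j.1 j.2) (Z2.As i j.1 j.2),
                    rk := rk i j, q0 := none,
                    pl := by
                      have := hfin i
                      exact hPl _ _ (hF _ _ _ _ _ i.fr (Z2.dat i j.1 j.2).conn
                        (Z2.dat i j.1 j.2).disj),
                    inj := h1 i j, min := h2 i j })
      (fun i j => fun x => some x) _ _ (fun i => i.fin)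
      (fun i j => Option.some_injective _) ?_
    rintro i x y hne ⟨hc, hly, hev, hpos⟩
    have hcomp : i.comp (i.comp x) = i.comp x := @Lay.idem i.P i.ord i.comp i.ly i.lay x
    have hk : 1 ≤ i.ly x / 2 ∧ i.comp (i.comp x) = i.comp x := ⟨by omega, hcomp⟩
    have hyZ : y ∈ Z2.Zs i (i.comp x) (i.ly x / 2) := ⟨hk, hc.symm, by omega⟩
    have hxZ : x ∈ Z2.Zs i (i.comp x) (i.ly x / 2) ∪ Z2.As i (i.comp x) (i.ly x / 2) := by
      rcases Nat.mod_two_eq_zero_or_one (i.ly x) with h | h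
      · exact Or.inl ⟨hk, rfl, by omega⟩
      · exact Or.inr ⟨hk, rfl, by omega⟩
    refine ⟨by simp only [hc, hly], ⟨by simp, by simp, h3 i _ y hyZ⟩, ?_⟩
    have h5 := h4 i (i.comp x, i.ly x / 2) x hxZ y hyZ
    refine Iff.trans ?_ h5.symm
    let _ := i.ord
    exact ⟨fun h => le_of_lt h, fun h => lt_of_le_of_ne h (Ne.symm hne)⟩
  refine (hS _ _ _ key).mono (fun i x y hne hd => ?_)
  obtain ⟨h1, h2, h3, h4⟩ := hd
  exact ⟨⟨h1.symm, h2.symm, h3, h4⟩, Iff.rfl⟩

end Pool.BD
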