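import Pool.Agent.H57.BD.StmtsZ

/-!
# ZS, ZX: exchange of the arguments, extension of the domain
-/

set_option autoImplicit false

namespace Pool.BD

theorem zs : ZSStmt := by
  intro κ Y Dom Rel h
  obtain ⟨K, φ, h⟩ := h
  refine ⟨K, fun b => φ (fun j => !(b j)), fun i => ?_⟩
  obtain ⟨L, hL, h⟩ := h i
  refine ⟨L, hL, fun x y hne hxy => ?_⟩
  have h1 : (fun j => !(Bits L x y j)) = Bits L y x := by
    funext j
    have h2 : L j x ≠ L j y := fun e => hne (hL j e)
    simp only [Bits]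
    rcases lt_or_gt_of_ne h2 with h3 | h3
    · simp [h3, h3.le]
    · simp [h3, h3.le]
  beta_reduce
  rw [h y x (Ne.symm hne) hxy, h1]

theorem zx : ZXStmt := by
  intro κ Y Dom Rel h
  obtain ⟨K, φ, h⟩ := h
  choose L hL h using h
  refine ⟨fun i x y => φ (Bits (L i) x y) = true, ⟨K, φ, fun i => ⟨L i, hL i, fun x y _ _ => Iff.rfl⟩⟩,
    fun i x y hne hd => h i x y hne hd⟩

end Pool.BD
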